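import Pool.Agent.helper52.Jac.Count

/-!
# MP_f24d98_nt: f(k) = (1 + O(k^(-δ))) J(k) for almost all k, and f ≍ g iff J ≍ g
-/

set_option autoImplicit false

namespace Pool.Agent.helper52.Jac

open Filter Finset Asymptotics Pool.Agent.helper85.Jac

/-- the transfer theorem with convenient parameters -/
theorem transfer' : ∃ δ : ℝ, 0 < δ ∧ δ ≤ 1 / 16 ∧ ∀ᶠ k : ℕ in atTop, ∀ m : ℕ, (k : ℝ) ^ (1 - 8 * δ) ≤ m →
    m + 3 ≤ k → min ((J (k - m) : ℝ) - (k : ℝ) ^ (1 / 2 : ℝ)) ((k : ℝ) ^ (1 + 8 * δ)) ≤ f k := by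
  obtain ⟨δ₀, hδ₀, h⟩ := transfer_main (1 / 2) (by norm_num) (by norm_num)
  have hmin : 0 < min δ₀ (1 / 2) := lt_min hδ₀ (by norm_num)
  refine ⟨min δ₀ (1 / 2) / 8, by positivity, ?_, ?_⟩
  · have := min_le_right δ₀ (1 / 2 : ℝ)
    linarith
  · filter_upwards [h, eventually_ge_atTop 1] with k hk hk1 m hm hmk
    have e8 : 8 * (min δ₀ (1 / 2) / 8) = min δ₀ (1 / 2) := by ring
    rw [e8] at hm ⊢
    have hk1' : (1 : ℝ) ≤ k := by exact_mod_cast hk1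
    have h1 : (k : ℝ) ^ (1 - δ₀) ≤ m := by
      refine le_trans (Real.rpow_le_rpow_of_exponent_le hk1' ?_) hm
      have := min_le_left δ₀ (1 / 2 : ℝ)
      linarith
    have h2 : ⌈(k : ℝ) ^ (1 - δ₀)⌉₊ ≤ m := Nat.ceil_le.2 h1
    have h3 : J (k - m) ≤ J (k - ⌈(k : ℝ) ^ (1 - δ₀)⌉₊) := J_mono (by omega) (by omega)
    have h3' : (J (k - m) : ℝ) ≤ (J (k - ⌈(k : ℝ) ^ (1 - δ₀)⌉₊) : ℝ) := by exact_mod_cast h3
    have h4 : (k : ℝ) ^ (1 + min δ₀ (1 / 2)) ≤ (k : ℝ) ^ (1 + δ₀) :=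
      Real.rpow_le_rpow_of_exponent_le hk1' (by have := min_le_left δ₀ (1 / 2 : ℝ); linarith)
    refine le_trans (min_le_min ?_ h4) hk
    linarith

/-- `log K ≤ K ^ δ` for large `K` -/
theorem log_le_pow (δ : ℝ) (hδ : 0 < δ) : ∀ᶠ k : ℕ in atTop, Real.log (k : ℝ) ≤ (k : ℝ) ^ δ := by
  have h := (isLittleO_log_rpow_atTop hδ).bound (by norm_num : (0 : ℝ) < 1)
  have h' := tendsto_natCast_atTop_atTop.eventually h
  filter_upwards [h', eventually_ge_atTop 1] with k hk hk1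
  have e1 : 0 ≤ Real.log (k : ℝ) := Real.log_nonneg (by exact_mod_cast hk1)
  have e2 : (0 : ℝ) ≤ (k : ℝ) ^ δ := by positivity
  rwa [Real.norm_of_nonneg e1, Real.norm_of_nonneg e2, one_mul] at hk

theorem pow_large (δ c : ℝ) (hδ : 0 < δ) : ∀ᶠ k : ℕ in atTop, c ≤ (k : ℝ) ^ δ :=
  ((tendsto_rpow_atTop hδ).comp tendsto_natCast_atTop_atTop).eventually_ge_atTop _

/-- the exceptional set is small -/
theorem almost_all (δ : ℝ) (hδ : 0 < δ) (hδ2 : δ ≤ 1 / 16)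
    (hT : ∀ᶠ k : ℕ in atTop, ∀ m : ℕ, (k : ℝ) ^ (1 - 8 * δ) ≤ m →
      m + 3 ≤ k → min ((J (k - m) : ℝ) - (k : ℝ) ^ (1 / 2 : ℝ)) ((k : ℝ) ^ (1 + 8 * δ)) ≤ f k) :
    ∀ᶠ K : ℕ in atTop, (((range (K + 1)).filter (fun k : ℕ =>
      (f k : ℝ) < (1 - (k : ℝ) ^ (-δ)) * min (J k : ℝ) ((k : ℝ) ^ (1 + δ)))).card : ℝ) ≤ (K : ℝ) ^ (1 - δ) := by
  obtain ⟨a, ha⟩ := eventually_atTop.1 (hT.and (J_lin.and ((pow_large (1 / 2 - δ) 2 (by linarith)).and
    (eventually_ge_atTop 3))))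
  filter_upwards [eventually_ge_atTop a, eventually_ge_atTop 3, log_le_pow δ hδ,
    pow_large (5 * δ) 24 (by linarith), pow_large (1 - δ) (2 * a) (by linarith)] with K hKa hK3 hlog h5 h1
  classical
  have hK1 : (1 : ℝ) ≤ K := by exact_mod_cast (by omega : 1 ≤ K)
  have hK0 : (0 : ℝ) < K := by linarith
  set m := ⌈(K : ℝ) ^ (1 - 8 * δ)⌉₊ with hm
  set M : ℕ → ℝ := fun i => min (J i : ℝ) ((i : ℝ) ^ (1 + δ)) with hM
  set L := (K : ℝ) ^ (-δ) / 2 with hL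
  have hL0 : 0 < L := by positivity
  have hMge : ∀ i, a ≤ i → (i : ℝ) ≤ M i ∧ 1 ≤ M i := by
    intro i hi
    obtain ⟨_, hJi, _, hi3⟩ := ha i hi
    have hi1 : (1 : ℝ) ≤ i := by exact_mod_cast (by omega : 1 ≤ i)
    have h2 : (i : ℝ) ≤ M i := by
      refine le_min (by linarith) ?_
      calc (i : ℝ) = (i : ℝ) ^ (1 : ℝ) := (Real.rpow_one _).symm
        _ ≤ (i : ℝ) ^ (1 + δ) := Real.rpow_le_rpow_of_exponent_le hi1 (by linarith)
    exact ⟨h2, le_trans hi1 h2⟩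
  have hMmono : ∀ i j, a ≤ i → i ≤ j → M i ≤ M j := by
    intro i j hi hij
    obtain ⟨_, _, _, hi3⟩ := ha i hi
    refine min_le_min (by exact_mod_cast J_mono hi3 hij) ?_
    exact Real.rpow_le_rpow (Nat.cast_nonneg i) (by exact_mod_cast hij) (by linarith)
  have hcount := count_bad (fun i => Real.log (M i)) a m L hL0
    (fun i j hi hij => Real.log_le_log (by linarith [(hMge i hi).2]) (hMmono i j hi hij))
    (fun i hi => Real.log_nonneg (hMge i hi).2) K hKa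
  -- the exceptional `k` are bad
  have hsub : (range (K + 1)).filter (fun k : ℕ =>
      (f k : ℝ) < (1 - (k : ℝ) ^ (-δ)) * min (J k : ℝ) ((k : ℝ) ^ (1 + δ))) ⊆
      range (a + m) ∪ (range (K + 1)).filter (fun k => a + m ≤ k ∧
        Real.log (M (k - m)) + L < Real.log (M k)) := by
    intro k hk
    rw [mem_filter, mem_range] at hk
    obtain ⟨hkK, hfk⟩ := hk
    rw [mem_union, mem_range, mem_filter, mem_range]
    by_cases hk : k < a + m
    · exact Or.inl hk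
    · refine Or.inr ⟨hkK, by omega, ?_⟩
      have hka : a ≤ k := by omega
      obtain ⟨hTk, hJk, hpk, hk3⟩ := ha k hka
      obtain ⟨_, _, _, hkm3⟩ := ha (k - m) (by omega)
      have hk1 : (1 : ℝ) ≤ k := by exact_mod_cast (by omega : 1 ≤ k)
      have hk0 : (0 : ℝ) < k := by linarith
      have hkK' : (k : ℝ) ≤ K := by exact_mod_cast (by omega : k ≤ K)
      have hm1 : (k : ℝ) ^ (1 - 8 * δ) ≤ m :=
        le_trans (Real.rpow_le_rpow hk0.le hkK' (by linarith)) (Nat.le_ceil _)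
      have hmin := hTk m hm1 (by omega)
      have hMk : (k : ℝ) ≤ M k := (hMge k hka).1
      have hMk0 : 0 < M k := by linarith
      have hfk' : (f k : ℝ) < (1 - (k : ℝ) ^ (-δ)) * M k := hfk
      have hkd : 0 < (k : ℝ) ^ (-δ) := by positivity
      have hflt : (f k : ℝ) < (k : ℝ) ^ (1 + 8 * δ) := by
        have h2 : (f k : ℝ) < M k := by nlinarith
        have h3 : M k ≤ (k : ℝ) ^ (1 + δ) := min_le_right _ _
        have h4 : (k : ℝ) ^ (1 + δ) ≤ (k : ℝ) ^ (1 + 8 * δ) :=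
          Real.rpow_le_rpow_of_exponent_le hk1 (by linarith)
        linarith
      have hJm : (J (k - m) : ℝ) - (k : ℝ) ^ (1 / 2 : ℝ) ≤ f k := by
        rcases min_le_iff.1 hmin with h | h
        · exact h
        · linarith
      -- the square root is small
      have hsq : (k : ℝ) ^ (1 / 2 : ℝ) ≤ (k : ℝ) ^ (-δ) / 2 * M k := by
        have e1 : (k : ℝ) ^ (1 / 2 : ℝ) * (k : ℝ) ^ (1 / 2 - δ) * (k : ℝ) ^ (δ) = k := by
          rw [← Real.rpow_add hk0, ← Real.rpow_add hk0]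
          have : (1 / 2 + (1 / 2 - δ) + δ : ℝ) = 1 := by ring
          rw [this, Real.rpow_one]
        have e2 : (k : ℝ) ^ (-δ) * (k : ℝ) ^ δ = 1 := by
          rw [← Real.rpow_add hk0]
          simp
        have hs0 : 0 < (k : ℝ) ^ (1 / 2 : ℝ) := by positivity
        have hd0 : 0 < (k : ℝ) ^ δ := by positivity
        have h6 : 2 * (k : ℝ) ^ (1 / 2 : ℝ) * (k : ℝ) ^ δ ≤ k := by
          calc 2 * (k : ℝ) ^ (1 / 2 : ℝ) * (k : ℝ) ^ δ
              ≤ (k : ℝ) ^ (1 / 2 - δ) * (k : ℝ) ^ (1 / 2 : ℝ) * (k : ℝ) ^ δ := by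
                refine mul_le_mul_of_nonneg_right ?_ hd0.le
                exact mul_le_mul_of_nonneg_right hpk hs0.le
            _ = (k : ℝ) ^ (1 / 2 : ℝ) * (k : ℝ) ^ (1 / 2 - δ) * (k : ℝ) ^ (δ) := by ring
            _ = k := e1
        have h7 : (k : ℝ) ^ (-δ) / 2 * (2 * (k : ℝ) ^ (1 / 2 : ℝ) * (k : ℝ) ^ δ) ≤ (k : ℝ) ^ (-δ) / 2 * M k :=
          mul_le_mul_of_nonneg_left (le_trans h6 hMk) (by positivity)
        have e3 : (k : ℝ) ^ (-δ) / 2 * (2 * (k : ℝ) ^ (1 / 2 : ℝ) * (k : ℝ) ^ δ) = (k : ℝ) ^ (1 / 2 : ℝ) := by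
          calc (k : ℝ) ^ (-δ) / 2 * (2 * (k : ℝ) ^ (1 / 2 : ℝ) * (k : ℝ) ^ δ)
              = ((k : ℝ) ^ (-δ) * (k : ℝ) ^ δ) * (k : ℝ) ^ (1 / 2 : ℝ) := by ring
            _ = _ := by rw [e2, one_mul]
        rwa [e3] at h7
      have hMm : M (k - m) < (1 - (k : ℝ) ^ (-δ) / 2) * M k := by
        have h8 : M (k - m) ≤ (J (k - m) : ℝ) := min_le_left _ _
        nlinarith
      have hKk : (K : ℝ) ^ (-δ) ≤ (k : ℝ) ^ (-δ) :=
        Real.rpow_le_rpow_of_nonpos hk0 hkK' (by linarith)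
      have hfin : M (k - m) < Real.exp (-L) * M k := by
        have h9 : 1 - L ≤ Real.exp (-L) := by
          have := Real.add_one_le_exp (-L)
          linarith
        have h10 : (1 - (k : ℝ) ^ (-δ) / 2) * M k ≤ (1 - L) * M k :=
          mul_le_mul_of_nonneg_right (by rw [hL]; linarith) hMk0.le
        have h11 : (1 - L) * M k ≤ Real.exp (-L) * M k := mul_le_mul_of_nonneg_right h9 hMk0.le
        linarith
      have hMm0 : 0 < M (k - m) := by linarith [(hMge (k - m) (by omega)).2]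
      have h12 := Real.log_lt_log hMm0 hfin
      rw [Real.log_mul (Real.exp_pos _).ne' hMk0.ne', Real.log_exp] at h12
      linarith
  have hcard : (((range (K + 1)).filter (fun k : ℕ =>
      (f k : ℝ) < (1 - (k : ℝ) ^ (-δ)) * min (J k : ℝ) ((k : ℝ) ^ (1 + δ)))).card : ℝ) ≤
      (a + m : ℝ) + m * (1 + Real.log (M K) / L) := by
    have h2 := card_le_card hsub
    have h3 := card_union_le (range (a + m)) ((range (K + 1)).filter (fun k => a + m ≤ k ∧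
        Real.log (M (k - m)) + L < Real.log (M k)))
    rw [card_range] at h3
    have h4 : (((range (K + 1)).filter (fun k : ℕ =>
      (f k : ℝ) < (1 - (k : ℝ) ^ (-δ)) * min (J k : ℝ) ((k : ℝ) ^ (1 + δ)))).card : ℝ) ≤
      ((a + m : ℕ) : ℝ) + (((range (K + 1)).filter (fun k => a + m ≤ k ∧
        Real.log (M (k - m)) + L < Real.log (M k))).card : ℝ) := by exact_mod_cast le_trans h2 h3
    push_cast at h4
    linarith
  refine le_trans hcard ?_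
  -- numerical part
  have hmle : (m : ℝ) ≤ 2 * (K : ℝ) ^ (1 - 8 * δ) := by
    have h2 : (m : ℝ) < (K : ℝ) ^ (1 - 8 * δ) + 1 := Nat.ceil_lt_add_one (by positivity)
    have h3 : (1 : ℝ) ≤ (K : ℝ) ^ (1 - 8 * δ) := Real.one_le_rpow hK1 (by linarith)
    linarith
  have hGK : Real.log (M K) ≤ 2 * (K : ℝ) ^ δ := by
    have h2 : Real.log (M K) ≤ Real.log ((K : ℝ) ^ (1 + δ)) :=
      Real.log_le_log (by linarith [(hMge K hKa).2]) (min_le_right _ _)
    rw [Real.log_rpow hK0] at h2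
    have hlog0 : 0 ≤ Real.log (K : ℝ) := Real.log_nonneg hK1
    nlinarith
  have hdiv : Real.log (M K) / L ≤ 4 * (K : ℝ) ^ (2 * δ) := by
    rw [div_le_iff₀ hL0, hL]
    have e1 : 4 * (K : ℝ) ^ (2 * δ) * ((K : ℝ) ^ (-δ) / 2) = 2 * (K : ℝ) ^ δ := by
      have : (K : ℝ) ^ (2 * δ) * (K : ℝ) ^ (-δ) = (K : ℝ) ^ δ := by
        rw [← Real.rpow_add hK0]
        congr 1
        ring
      calc 4 * (K : ℝ) ^ (2 * δ) * ((K : ℝ) ^ (-δ) / 2) = 2 * ((K : ℝ) ^ (2 * δ) * (K : ℝ) ^ (-δ)) := by ring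
        _ = _ := by rw [this]
    rw [e1]
    exact hGK
  have hone : (1 : ℝ) ≤ (K : ℝ) ^ (2 * δ) := Real.one_le_rpow hK1 (by linarith)
  have hA : (0 : ℝ) ≤ (K : ℝ) ^ (1 - 8 * δ) := by positivity
  have hm0 : (0 : ℝ) ≤ m := Nat.cast_nonneg m
  have htot : (a + m : ℝ) + m * (1 + Real.log (M K) / L) ≤ a + 12 * (K : ℝ) ^ (1 - 6 * δ) := by
    have h2 : (m : ℝ) + m * (1 + Real.log (M K) / L) ≤ m * (6 * (K : ℝ) ^ (2 * δ)) := by
      have : (m : ℝ) + m * (1 + Real.log (M K) / L) = m * (2 + Real.log (M K) / L) := by ring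
      rw [this]
      exact mul_le_mul_of_nonneg_left (by linarith) hm0
    have h3 : (m : ℝ) * (6 * (K : ℝ) ^ (2 * δ)) ≤ 2 * (K : ℝ) ^ (1 - 8 * δ) * (6 * (K : ℝ) ^ (2 * δ)) :=
      mul_le_mul_of_nonneg_right hmle (by positivity)
    have h4 : 2 * (K : ℝ) ^ (1 - 8 * δ) * (6 * (K : ℝ) ^ (2 * δ)) = 12 * (K : ℝ) ^ (1 - 6 * δ) := by
      have : (K : ℝ) ^ (1 - 8 * δ) * (K : ℝ) ^ (2 * δ) = (K : ℝ) ^ (1 - 6 * δ) := by
        rw [← Real.rpow_add hK0]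
        congr 1
        ring
      calc 2 * (K : ℝ) ^ (1 - 8 * δ) * (6 * (K : ℝ) ^ (2 * δ))
          = 12 * ((K : ℝ) ^ (1 - 8 * δ) * (K : ℝ) ^ (2 * δ)) := by ring
        _ = _ := by rw [this]
    linarith
  have hlast : 24 * (K : ℝ) ^ (1 - 6 * δ) ≤ (K : ℝ) ^ (1 - δ) := by
    have e : (K : ℝ) ^ (1 - δ) = (K : ℝ) ^ (5 * δ) * (K : ℝ) ^ (1 - 6 * δ) := by
      rw [← Real.rpow_add hK0]
      congr 1
      ring
    rw [e]
    exact mul_le_mul_of_nonneg_right h5 (by positivity)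
  linarith

end Pool.Agent.helper52.Jac
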