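import Pool.Agent.helper85.JacMain
import Pool.Agent.helper85.JacRankin

/-!
# MP_f24d98_nt: f(k) against J(k) for the same k. Preliminaries
-/

set_option autoImplicit false

namespace Pool.Agent.helper52.Jac

open Filter Finset Pool.Agent.helper85.Jac

/-- a monotone function with few jumps: the number of `k ≤ N` at which `G` grows by more than `L` over a distance `m` -/
theorem count_bad (G : ℕ → ℝ) (a m : ℕ) (L : ℝ) (hL : 0 < L) (hmono : ∀ i j, a ≤ i → i ≤ j → G i ≤ G j)
    (h0 : ∀ i, a ≤ i → 0 ≤ G i) : ∀ N : ℕ, a ≤ N →
    (((range (N + 1)).filter (fun k => a + m ≤ k ∧ G (k - m) + L < G k)).card : ℝ) ≤ m * (1 + G N / L) := by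
  intro N
  induction N using Nat.strong_induction_on with
  | _ N ih =>
    intro hN
    by_cases hbad : a + m ≤ N ∧ G (N - m) + L < G N
    · have hm : 1 ≤ m := by
        by_contra hm
        have hm0 : m = 0 := by omega
        have := hbad.2
        rw [hm0, Nat.sub_zero] at this
        linarith
      have h1 := ih (N - m) (by omega) (by omega)
      have hsub : (range (N + 1)).filter (fun k => a + m ≤ k ∧ G (k - m) + L < G k) ⊆
          ((range (N - m + 1)).filter (fun k => a + m ≤ k ∧ G (k - m) + L < G k)) ∪ Ioc (N - m) N := by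
        intro k hk
        rw [mem_filter, mem_range] at hk
        rw [mem_union, mem_filter, mem_range, mem_Ioc]
        by_cases hkm : k < N - m + 1
        · exact Or.inl ⟨hkm, hk.2⟩
        · exact Or.inr ⟨by omega, by omega⟩
      have h2 : (((range (N + 1)).filter (fun k => a + m ≤ k ∧ G (k - m) + L < G k)).card : ℝ) ≤
          (((range (N - m + 1)).filter (fun k => a + m ≤ k ∧ G (k - m) + L < G k)).card : ℝ) + m := by
        have h3 := card_le_card hsub
        have h4 := card_union_le ((range (N - m + 1)).filter (fun k => a + m ≤ k ∧ G (k - m) + L < G k))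
          (Ioc (N - m) N)
        rw [Nat.card_Ioc] at h4
        have h5 : N - (N - m) = m := by omega
        rw [h5] at h4
        exact_mod_cast le_trans h3 h4
      have h6 : G (N - m) / L + 1 ≤ G N / L := by
        rw [div_add_one hL.ne', div_le_div_iff_of_pos_right hL]
        exact hbad.2.le
      have h7 : (m : ℝ) * (1 + G (N - m) / L) + m ≤ m * (1 + G N / L) := by
        have hm0 : (0 : ℝ) ≤ m := Nat.cast_nonneg m
        nlinarith
      linarith
    · rcases Nat.eq_or_lt_of_le hN with hNa | hNa
      · have he : (range (N + 1)).filter (fun k => a + m ≤ k ∧ G (k - m) + L < G k) = ∅ := by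
          rw [eq_empty_iff_forall_notMem]
          intro k hk
          rw [mem_filter, mem_range] at hk
          have hm0 : m = 0 := by omega
          have := hk.2.2
          rw [hm0, Nat.sub_zero] at this
          linarith
        rw [he, card_empty, Nat.cast_zero]
        have := h0 N hN
        positivity
      · have h1 := ih (N - 1) (by omega) (by omega)
        have he : (range (N + 1)).filter (fun k => a + m ≤ k ∧ G (k - m) + L < G k) =
            (range (N - 1 + 1)).filter (fun k => a + m ≤ k ∧ G (k - m) + L < G k) := by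
          ext k
          rw [mem_filter, mem_filter, mem_range, mem_range]
          constructor
          · rintro ⟨h2, h3⟩
            refine ⟨?_, h3⟩
            by_contra h4
            have : k = N := by omega
            rw [this] at h3
            exact hbad h3
          · rintro ⟨h2, h3⟩
            exact ⟨by omega, h3⟩
        rw [he]
        refine le_trans h1 ?_
        have h2 : G (N - 1) / L ≤ G N / L := by
          rw [div_le_div_iff_of_pos_right hL]
          exact hmono _ _ (by omega) (by omega)
        have hm0 : (0 : ℝ) ≤ m := Nat.cast_nonneg m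
        nlinarith

theorem J_succ {k : ℕ} (hk : 3 ≤ k) : J k ≤ J (k + 1) := by
  rcases Nat.lt_or_ge (J k) 3 with h | h
  · have := le_J (isGap_two (k := k + 1) (by omega))
    omega
  · obtain ⟨a, _, _, hcov⟩ := (isGap_J (k := k) (by omega)).pattern
    have h1 := J_gt_of_cover (k := k + 1) (N := J k - 1) (by omega) (by omega) (fun _ => a) (by
      intro i h1 h2
      obtain ⟨p, hp, hpa⟩ := hcov i (by omega) (by omega)
      exact ⟨p, PS_mono (Nat.le_succ k) hp, hpa⟩)
    omega

theorem J_mono {i j : ℕ} (hi : 3 ≤ i) (hij : i ≤ j) : J i ≤ J j := by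
  induction j, hij using Nat.le_induction with
  | base => exact le_rfl
  | succ j hij ih => exact le_trans ih (J_succ (by omega))

/-- the trivial upper bound -/
theorem f_le (k : ℕ) (hk : 1 ≤ k) : f k ≤ J k + 2 := by
  apply Nat.sInf_le
  refine ⟨by omega, ?_, ?_⟩
  · rcases Nat.eq_zero_or_pos (J k) with h | h
    · rw [h]
      exact even_two
    · have hg := isGap_J h
      obtain ⟨a, _, _, _, h1, h2, _⟩ := hg
      have h2' : 2 ∣ primo k := dvd_primo (two_mem hk)
      have ho1 : ¬ 2 ∣ a := fun hd => by
        have := Nat.Coprime.eq_one_of_dvd (Nat.Coprime.coprime_dvd_right h2' h1 |>.symm) hd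
        omega
      have ho2 : ¬ 2 ∣ a + J k := fun hd => by
        have := Nat.Coprime.eq_one_of_dvd (Nat.Coprime.coprime_dvd_right h2' h2 |>.symm) hd
        omega
      rw [even_iff_two_dvd]
      omega
  · intro hg
    have := le_J hg
    omega

/-- `J` is at least linear -/
theorem J_lin : ∀ᶠ k : ℕ in atTop, 4 * (k : ℝ) ≤ J k := by
  filter_upwards [J_lower, tendsto_logloglog.eventually_ge_atTop 1, tendsto_loglog.eventually_ge_atTop 128,
    tendsto_log.eventually_ge_atTop 8000] with k hk hs ht hL
  set L := Real.log k with hLdef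
  set t := Real.log L with htdef
  set s := Real.log t with hsdef
  have hL0 : 0 < L := by linarith
  have ht0 : 0 < t := by linarith
  have hLexp : L = Real.exp t := (Real.exp_log hL0).symm
  have h3 : t ^ 3 / 6 ≤ L := by
    rw [hLexp]
    have := Real.pow_div_factorial_le_exp t ht0.le 3
    norm_num [Nat.factorial] at this
    exact this
  have h2 : t ^ 2 ≤ L := by
    have : t ^ 2 * 6 ≤ t ^ 3 := by
      have e : t ^ 3 = t ^ 2 * t := by ring
      rw [e]
      exact mul_le_mul_of_nonneg_left (by linarith) (sq_nonneg t)
    linarith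
  have hk0 : (0 : ℝ) ≤ k := Nat.cast_nonneg k
  have h4 : 8000 * (k : ℝ) ≤ k * L ^ 2 * s / t ^ 2 := by
    rw [le_div_iff₀ (by positivity)]
    have h5 : 8000 * t ^ 2 ≤ L ^ 2 := by
      calc 8000 * t ^ 2 ≤ L * L := mul_le_mul hL h2 (sq_nonneg t) hL0.le
        _ = L ^ 2 := by ring
    have h6 : L ^ 2 ≤ L ^ 2 * s := le_mul_of_one_le_right (sq_nonneg L) hs
    calc 8000 * (k : ℝ) * t ^ 2 = k * (8000 * t ^ 2) := by ring
      _ ≤ k * (L ^ 2 * s) := mul_le_mul_of_nonneg_left (le_trans h5 h6) hk0
      _ = _ := by ring
  linarith

end Pool.Agent.helper52.Jac
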