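import Pool.Agent.helper52.Jac.Alm

/-!
# MP_f24d98_nt: f has the order of growth g iff J has
-/

set_option autoImplicit false

namespace Pool.Agent.helper52.Jac

open Filter Finset Pool.Agent.helper85.Jac

/-- `F` has the order of growth of `g` -/
def HasOrder (F : ℕ → ℕ) (g : ℕ → ℝ) : Prop :=
  ∃ c₁ c₂ : ℝ, 0 < c₁ ∧ ∀ᶠ k : ℕ in atTop, c₁ * g k ≤ (F k : ℝ) ∧ (F k : ℝ) ≤ c₂ * g k

theorem f_le' (k : ℕ) : f k ≤ J k + 2 := by
  rcases Nat.eq_zero_or_pos k with h | h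
  · subst h
    have hno : ∀ t, ¬ IsGap 0 t := by
      rintro t ⟨a, h1, h2, h3, _⟩
      have : primo 0 = 1 := by simp [primo]
      omega
    have h2 : f 0 ≤ 2 := Nat.sInf_le ⟨by omega, even_two, hno 2⟩
    omega
  · exact f_le k h

/-- the shift is small -/
theorem shift_small (δ : ℝ) (hδ : 0 < δ) (hδ2 : δ ≤ 1 / 16) : ∀ᶠ k : ℕ in atTop,
    ∃ m : ℕ, (k : ℝ) ^ (1 - 8 * δ) ≤ m ∧ 4 * m + 3 ≤ k := by
  filter_upwards [pow_large (8 * δ) 8 (by linarith), eventually_ge_atTop 16] with k hk hk16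
  have hk0 : (0 : ℝ) < k := by exact_mod_cast (by omega : 0 < k)
  refine ⟨⌈(k : ℝ) ^ (1 - 8 * δ)⌉₊, Nat.le_ceil _, ?_⟩
  have h1 : (⌈(k : ℝ) ^ (1 - 8 * δ)⌉₊ : ℝ) < (k : ℝ) ^ (1 - 8 * δ) + 1 := Nat.ceil_lt_add_one (by positivity)
  have h2 : 8 * (k : ℝ) ^ (1 - 8 * δ) ≤ k := by
    have e : (k : ℝ) ^ (8 * δ) * (k : ℝ) ^ (1 - 8 * δ) = k := by
      rw [← Real.rpow_add hk0]
      have : (8 * δ + (1 - 8 * δ) : ℝ) = 1 := by ring
      rw [this, Real.rpow_one]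
    calc 8 * (k : ℝ) ^ (1 - 8 * δ) ≤ (k : ℝ) ^ (8 * δ) * (k : ℝ) ^ (1 - 8 * δ) :=
          mul_le_mul_of_nonneg_right hk (by positivity)
      _ = k := e
  have h3 : (16 : ℝ) ≤ k := by exact_mod_cast hk16
  have h4 : 4 * (⌈(k : ℝ) ^ (1 - 8 * δ)⌉₊ : ℝ) + 3 < k + 1 := by linarith
  have h5 : ((4 * ⌈(k : ℝ) ^ (1 - 8 * δ)⌉₊ + 3 : ℕ) : ℝ) < ((k + 1 : ℕ) : ℝ) := by
    push_cast
    exact h4
  have h6 : 4 * ⌈(k : ℝ) ^ (1 - 8 * δ)⌉₊ + 3 < k + 1 := by exact_mod_cast h5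
  omega

theorem sqrt_le (k : ℕ) (hk : 1 ≤ k) : (k : ℝ) ^ (1 / 2 : ℝ) ≤ k := by
  have hk1 : (1 : ℝ) ≤ k := by exact_mod_cast hk
  calc (k : ℝ) ^ (1 / 2 : ℝ) ≤ (k : ℝ) ^ (1 : ℝ) := Real.rpow_le_rpow_of_exponent_le hk1 (by norm_num)
    _ = k := Real.rpow_one _

/-- `f` is at least linear -/
theorem f_lin (δ : ℝ) (hδ : 0 < δ) (hδ2 : δ ≤ 1 / 16)
    (hT : ∀ᶠ k : ℕ in atTop, ∀ m : ℕ, (k : ℝ) ^ (1 - 8 * δ) ≤ m →
      m + 3 ≤ k → min ((J (k - m) : ℝ) - (k : ℝ) ^ (1 / 2 : ℝ)) ((k : ℝ) ^ (1 + 8 * δ)) ≤ f k) :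
    ∀ᶠ k : ℕ in atTop, (k : ℝ) ≤ f k := by
  obtain ⟨a, ha⟩ := eventually_atTop.1 J_lin
  filter_upwards [hT, shift_small δ hδ hδ2, eventually_ge_atTop (2 * a), eventually_ge_atTop 3] with
    k hk hm hka hk3
  obtain ⟨m, hm1, hm2⟩ := hm
  have hk1 : (1 : ℝ) ≤ k := by exact_mod_cast (by omega : 1 ≤ k)
  refine le_trans (le_min ?_ ?_) (hk m hm1 (by omega))
  · have h1 := ha (k - m) (by omega)
    have h2 : (k : ℝ) ≤ 2 * ((k - m : ℕ) : ℝ) := by exact_mod_cast (by omega : k ≤ 2 * (k - m))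
    have h3 := sqrt_le k (by omega)
    linarith
  · calc (k : ℝ) = (k : ℝ) ^ (1 : ℝ) := (Real.rpow_one _).symm
      _ ≤ (k : ℝ) ^ (1 + 8 * δ) := Real.rpow_le_rpow_of_exponent_le hk1 (by linarith)

theorem order_equiv (δ : ℝ) (hδ : 0 < δ) (hδ2 : δ ≤ 1 / 16)
    (hT : ∀ᶠ k : ℕ in atTop, ∀ m : ℕ, (k : ℝ) ^ (1 - 8 * δ) ≤ m →
      m + 3 ≤ k → min ((J (k - m) : ℝ) - (k : ℝ) ^ (1 / 2 : ℝ)) ((k : ℝ) ^ (1 + 8 * δ)) ≤ f k)
    (g : ℕ → ℝ) (C : ℝ) (hg : ∀ᶠ k : ℕ in atTop, ∀ j : ℕ, k ≤ 2 * j → j ≤ 2 * k → g k ≤ C * g j)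
    (hg1 : ∀ᶠ k : ℕ in atTop, 0 < g k ∧ g k ≤ (k : ℝ) ^ (1 + δ)) :
    HasOrder f g ↔ HasOrder J g := by
  have hflin := f_lin δ hδ hδ2 hT
  obtain ⟨a, ha⟩ := eventually_atTop.1 (hg.and (hg1.and (hflin.and (J_lin.and (eventually_ge_atTop 4)))))
  have hCpos : 0 < C := by
    have h1 := (ha a le_rfl).1 a (by omega) (by omega)
    have h2 := (ha a le_rfl).2.1.1
    by_contra hC
    have : C * g a ≤ 0 := mul_nonpos_of_nonpos_of_nonneg (not_lt.1 hC) h2.le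
    linarith
  constructor
  · rintro ⟨c₁, c₂, hc₁, hord⟩
    obtain ⟨b, hb⟩ := eventually_atTop.1 (hord.and (hT.and ((shift_small δ hδ hδ2).and
      (pow_large (7 * δ) (|c₂| + 1) (by linarith)))))
    refine ⟨c₁ / 2, 2 * c₂ * C, by positivity, ?_⟩
    filter_upwards [eventually_ge_atTop a, eventually_ge_atTop b] with k hka hkb
    obtain ⟨hgk, ⟨hgk0, _⟩, hfk, _, hk4⟩ := ha k hka
    obtain ⟨⟨hlow, _⟩, _⟩ := hb k hkb
    constructor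
    · have h1 : (f k : ℝ) ≤ J k + 2 := by exact_mod_cast f_le k (by omega)
      have h2 : (4 : ℝ) ≤ k := by exact_mod_cast hk4
      linarith
    · obtain ⟨_, ⟨hg20, hg2⟩, hf2, _, _⟩ := ha (2 * k) (by omega)
      obtain ⟨hg2k, _⟩ := ha (2 * k) (by omega)
      obtain ⟨⟨_, hup⟩, hT2, ⟨m, hm1, hm2⟩, hp7⟩ := hb (2 * k) (by omega)
      have hmin := hT2 m hm1 (by omega)
      have hk0 : (0 : ℝ) < ((2 * k : ℕ) : ℝ) := by exact_mod_cast (by omega : 0 < 2 * k)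
      have hlt : (f (2 * k) : ℝ) < ((2 * k : ℕ) : ℝ) ^ (1 + 8 * δ) := by
        have h3 : c₂ * g (2 * k) ≤ |c₂| * ((2 * k : ℕ) : ℝ) ^ (1 + δ) := by
          calc c₂ * g (2 * k) ≤ |c₂| * g (2 * k) := mul_le_mul_of_nonneg_right (le_abs_self _) hg20.le
            _ ≤ _ := mul_le_mul_of_nonneg_left hg2 (abs_nonneg _)
        have e : ((2 * k : ℕ) : ℝ) ^ (1 + 8 * δ) = ((2 * k : ℕ) : ℝ) ^ (7 * δ) * ((2 * k : ℕ) : ℝ) ^ (1 + δ) := by
          rw [← Real.rpow_add hk0]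
          congr 1
          ring
        have hpos : 0 < ((2 * k : ℕ) : ℝ) ^ (1 + δ) := by positivity
        rw [e]
        have h4 : |c₂| * ((2 * k : ℕ) : ℝ) ^ (1 + δ) < ((2 * k : ℕ) : ℝ) ^ (7 * δ) * ((2 * k : ℕ) : ℝ) ^ (1 + δ) :=
          mul_lt_mul_of_pos_right (by linarith) hpos
        linarith
      have hJm : (J (2 * k - m) : ℝ) - ((2 * k : ℕ) : ℝ) ^ (1 / 2 : ℝ) ≤ f (2 * k) := by
        rcases min_le_iff.1 hmin with h | h
        · exact h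
        · linarith
      have h5 : (J k : ℝ) ≤ J (2 * k - m) := by exact_mod_cast J_mono (by omega) (by omega)
      have h6 := sqrt_le (2 * k) (by omega)
      have h7 : g (2 * k) ≤ C * g k := hg2k k (by omega) (by omega)
      have hc₂ : 0 < c₂ := by
        by_contra hc
        have : c₂ * g (2 * k) ≤ 0 := mul_nonpos_of_nonpos_of_nonneg (not_lt.1 hc) hg20.le
        linarith
      have h8 : c₂ * g (2 * k) ≤ c₂ * (C * g k) := mul_le_mul_of_nonneg_left h7 hc₂.le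
      calc (J k : ℝ) ≤ 2 * f (2 * k) := by linarith
        _ ≤ 2 * (c₂ * (C * g k)) := by linarith
        _ = 2 * c₂ * C * g k := by ring
  · rintro ⟨c₁, c₂, hc₁, hord⟩
    obtain ⟨b, hb⟩ := eventually_atTop.1 hord
    refine ⟨min (c₁ / (2 * C)) 1, 2 * c₂, by positivity, ?_⟩
    filter_upwards [eventually_ge_atTop (2 * a), eventually_ge_atTop (2 * b), hT, shift_small δ hδ hδ2] with
      k hka hkb hTk hm
    obtain ⟨m, hm1, hm2⟩ := hm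
    obtain ⟨hgk, ⟨hgk0, hgk1⟩, hfk, hJk, hk4⟩ := ha k (by omega)
    obtain ⟨_, ⟨hgj0, _⟩, _, hJj, _⟩ := ha (k - m) (by omega)
    obtain ⟨hJlow, _⟩ := hb (k - m) (by omega)
    obtain ⟨_, hJup⟩ := hb k (by omega)
    have hk1 : (1 : ℝ) ≤ k := by exact_mod_cast (by omega : 1 ≤ k)
    have hk4' : (4 : ℝ) ≤ k := by exact_mod_cast hk4
    constructor
    · refine le_trans (le_min ?_ ?_) (hTk m hm1 (by omega))
      · have h1 := sqrt_le k (by omega)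
        have h2 : (k : ℝ) ≤ 2 * ((k - m : ℕ) : ℝ) := by exact_mod_cast (by omega : k ≤ 2 * (k - m))
        have h3 : g k ≤ C * g (k - m) := hgk (k - m) (by omega) (by omega)
        have h4 : min (c₁ / (2 * C)) 1 * g k ≤ c₁ / 2 * g (k - m) := by
          calc min (c₁ / (2 * C)) 1 * g k ≤ c₁ / (2 * C) * g k :=
                mul_le_mul_of_nonneg_right (min_le_left _ _) hgk0.le
            _ ≤ c₁ / (2 * C) * (C * g (k - m)) := mul_le_mul_of_nonneg_left h3 (by positivity)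
            _ = c₁ / 2 * g (k - m) := by field_simp
        linarith
      · calc min (c₁ / (2 * C)) 1 * g k ≤ 1 * g k := mul_le_mul_of_nonneg_right (min_le_right _ _) hgk0.le
          _ ≤ (k : ℝ) ^ (1 + δ) := by rw [one_mul]; exact hgk1
          _ ≤ (k : ℝ) ^ (1 + 8 * δ) := Real.rpow_le_rpow_of_exponent_le hk1 (by linarith)
    · have h1 : (f k : ℝ) ≤ J k + 2 := by exact_mod_cast f_le k (by omega)
      linarith

end Pool.Agent.helper52.Jac
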